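import Mathlib
import Pool.Agent.Q222.CM.Wn

/-!
# Chromatic memory with games with an initial vertex

Definitions in `Pool.Agent.Q222.CM.Defs` and `Pool.Agent.Q222.CM.Wn`: games with coloured edges,
`EveWins` (Eve has a winning strategy from a vertex), `MemLEAt P W k`: for every game of the class
`P` and every initial vertex from which Eve has a winning strategy for `W` some chromatic strategy
with `k` memory states wins from this vertex (so the skeleton may depend on the game).
`TwoLetters n`: the words over `n` letters in which two different letters occur infinitely often.

With this definition, which is literally the one of the problem file, the chromatic memory of the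
regular objective `TwoLetters n` over one-player games is `2` and over arbitrary games it is `n`.
-/

set_option autoImplicit false

namespace Pool.Agent.Results.MP_369bda_lc.InitialVertex

open Q222.CM

theorem result (n : ℕ) (hn : 2 ≤ n) :
    OmegaRegular (TwoLetters n) ∧
    IsLeast {k | MemLEAt OnePlayer (TwoLetters n) k} 2 ∧
    IsLeast {k | MemLEAt Arbitrary (TwoLetters n) k} n :=
  ⟨two_regular, ⟨mem_one_le, fun _ h => two_le_one hn h⟩,
    ⟨mem_arb_le (by omega) _, fun _ h => arb_lower hn h⟩⟩

end Pool.Agent.Results.MP_369bda_lc.InitialVertex
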