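import Mathlib
import Pool.Agent.Q222.CM.Full

/-!
# Chromatic memory over one-player games and over arbitrary games

Definitions (in `Pool.Agent.Q222.CM.Defs`): games are possibly infinite graphs with coloured edges
in which every vertex has an outgoing edge; `OnePlayer G`: Eve owns all vertices; `Arbitrary G`: no
condition; `EveWins G W v`: Eve has a winning strategy from `v` (a function of the history);
`Skeleton C k`: a chromatic memory skeleton with `k` states (initial state, update function of the
state and the colour); `Suffices P W S`: in every game of the class `P` some strategy with the
skeleton `S` wins for `W` from all vertices from which Eve has a winning strategy; `MemLE P W k`: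
in every game of the class `P` some chromatic strategy with `k` states does so; `OmegaRegular W`:
`W` is recognised by a finite deterministic parity automaton.

Nothing is assumed: in particular the case `k = 1` (Casares and Ohlmann) is proved here as well, by
a new argument (`Pool.Agent.Q222.CM.Sys` to `Pool.Agent.Q222.CM.Arb`), and the general case is
reduced to it (`Pool.Agent.Q222.CM.Lift`, `Pool.Agent.Q222.CM.Prod`).
-/

set_option autoImplicit false

namespace Pool.Agent.Results.MP_369bda_lc.OneToTwoPlayerLift

open Q222.CM

/-- A chromatic skeleton suffices for a regular objective over one-player games if and only if it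
suffices over arbitrary games, and the chromatic memory over one-player games is a finite number
which is equal to the chromatic memory over arbitrary games. -/
theorem result (C : Type) [Fintype C] (W : Set (ℕ → C)) (hW : OmegaRegular W) :
    (∀ (k : ℕ) (S : Skeleton C k), Suffices OnePlayer W S ↔ Suffices Arbitrary W S) ∧
    ∃ k, IsLeast {j | MemLE OnePlayer W j} k ∧ IsLeast {j | MemLE Arbitrary W j} k := by
  refine ⟨fun k S => suffices_iff hW k S, ?_⟩
  obtain ⟨k, hk⟩ := exists_isLeast (exists_memLE hW)
  have h : {j | MemLE OnePlayer W j} = {j | MemLE Arbitrary W j} := by
    ext j
    exact memLE_iff hW j
  exact ⟨k, by rw [h]; exact hk, hk⟩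

end Pool.Agent.Results.MP_369bda_lc.OneToTwoPlayerLift
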